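import Mathlib
import Pool.Agent.W743.GV.Stm

/-! Project GV (MP_d68153_an), part DU: differentials of the components of the velocity. -/

open Set
open scoped ContDiff
open Pool.Agent.W743.GV

namespace Pool.Agent.W73.GV

theorem lf_app (a b c : ℝ) (v : E3) : lf a b c v = a * v 0 + b * v 1 + c * v 2 := by
  simp [lf]

theorem proj_app (i : Fin 3) (v : E3) : (EuclideanSpace.proj i : E3 →L[ℝ] ℝ) v = v i := rfl

theorem has_co (i : Fin 3) (x : E3) :
    HasFDerivAt (fun y : E3 => y i) (EuclideanSpace.proj i : E3 →L[ℝ] ℝ) x :=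
  (EuclideanSpace.proj i : E3 →L[ℝ] ℝ).hasFDerivAt

theorem has_ss (x : E3) : HasFDerivAt ss (Ls x) x := by
  have h := ((has_co 0 x).pow 2).add ((has_co 1 x).pow 2)
  refine h.congr_fderiv ?_
  ext v
  rw [Ls, lf_app]
  simp

/-- quotients -/
theorem quo {g s : E3 → ℝ} {g' s' L : E3 →L[ℝ] ℝ} {x : E3} (hg : HasFDerivAt g g' x)
    (hs : HasFDerivAt s s' x) (h0 : s x ≠ 0)
    (hL : ∀ v, L v = (1 / s x) * g' v - (g x / s x ^ 2) * s' v) :
    HasFDerivAt (fun y => g y / s y) L x := by
  have hi : HasFDerivAt (fun y => (s y)⁻¹) ((-(s x ^ 2)⁻¹) • s') x :=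
    (hasDerivAt_inv h0).comp_hasFDerivAt x hs
  have h := hg.mul hi
  have h2 : (fun y => g y / s y) = fun y => g y * (s y)⁻¹ := by
    funext y
    rw [div_eq_mul_inv]
  rw [h2]
  refine h.congr_fderiv ?_
  ext v
  rw [hL]
  simp only [add_apply, smul_apply, smul_eq_mul]
  ring

theorem t_DU : S_DU := by
  intro d b f U p D S x hx
  have hJo : IsOpen (J d) := isOpen_Ioo
  have hP : p x ∈ J d := S.pJ x hx
  have hS : ss x ∈ J d := S.sJ x hx
  have hs0 : ss x ≠ 0 := by
    have h1 : 1 - d < ss x := hS.1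
    have h2 := D.hd1
    intro h
    rw [h] at h1
    linarith
  have hp : HasFDerivAt p (Lp b f x (p x)) x := S.dp x hx
  have hs : HasFDerivAt ss (Ls x) x := has_ss x
  have hb' : HasDerivAt b (deriv b (p x)) (p x) :=
    ((D.cb.contDiffAt (hJo.mem_nhds hP)).differentiableAt (by simp)).hasDerivAt
  have hf' : HasDerivAt f (deriv f (p x)) (p x) :=
    ((D.cf.contDiffAt (hJo.mem_nhds hP)).differentiableAt (by simp)).hasDerivAt
  have hb : HasFDerivAt (fun y => b (p y)) (deriv b (p x) • Lp b f x (p x)) x :=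
    hb'.comp_hasFDerivAt x hp
  have hf : HasFDerivAt (fun y => f (p y)) (deriv f (p x) • Lp b f x (p x)) x :=
    hf'.comp_hasFDerivAt x hp
  have hM : HasFDerivAt (fun y => MM b f (ss y) (p y))
      (MS b f (ss x) (p x) • Ls x + MP b f (ss x) (p x) • Lp b f x (p x)) x := by
    have h := (hs.mul ((hp.const_mul 3).sub ((hb.sub hs).pow 2))).sub
      ((hf.sub (hb.sub hs)).pow 2)
    refine h.congr_fderiv ?_
    ext v
    simp only [add_apply, smul_apply, smul_eq_mul,
      sub_apply, MS, MP]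
    simp
    ring
  have hMpos : 0 < MM b f (ss x) (p x) := D.Mpos _ hS _ hP
  have hr : HasFDerivAt (fun y => √(MM b f (ss y) (p y))) (Lr b f x (p x)) x :=
    hM.sqrt hMpos.ne'
  have hw : HasFDerivAt (fun y => wv b f y (p y)) (Lw b f x (p x)) x := by
    have h := hf.sub (hb.sub hs)
    refine h.congr_fderiv ?_
    ext v
    simp only [add_apply, smul_apply, smul_eq_mul,
      sub_apply, Lw]
    ring
  refine ⟨?_, ?_, ?_⟩
  · have hg := ((has_co 0 x).mul hr).sub ((has_co 1 x).mul hw)
    refine quo hg hs hs0 (fun v => ?_)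
    simp only [L0, lf_app, add_apply, smul_apply,
      smul_eq_mul, sub_apply, proj_app]
    ring
  · have hg := ((has_co 1 x).mul hr).add ((has_co 0 x).mul hw)
    refine quo hg hs hs0 (fun v => ?_)
    simp only [L1, lf_app, add_apply, smul_apply,
      smul_eq_mul, sub_apply, proj_app]
    ring
  · exact hb.sub hs

end Pool.Agent.W73.GV
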